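import Pool.Graph.R_seed8.Helper383.NI.K5

/-!
Growth of the Sobolev norms along the model solutions, simultaneously for all exponents in a
compact interval.
-/

open Complex MeasureTheory Set Filter Topology

namespace Pool.Agent.KS6_98.NIu

open Pool.Agent.Helper383.NI
open Pool.Agent.Helper383.NI.JD3 (exists_sol)
open Pool.Agent.Helper383.NI.JK0 (base_flow Pm om_zero Pm_props)
open Pool.Agent.Helper383.NI.JK1 (RT RT_tendsto RT_nonneg energy_T)
open Pool.Agent.Helper383.NI.JK2 (enstrophy_close)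
open Pool.Agent.Helper383.NI.JS1 (hsq_conj hsq_neg hsq_add_le hdot_le_hsq hsq_scale)
open Pool.Agent.Helper383.NI.JK5 (gr_vb gr_upper gr_lower gr_vel gr_choose)

/-- the Sobolev norms increase with the exponent -/
theorem hsq_mono {r s : ℝ} (h : r ≤ s) (f : ℂ → ℂ) : hsq r f ≤ hsq s f := by
  unfold hsq
  apply lintegral_mono
  intro ξ
  simp only
  gcongr
  nlinarith [sq_nonneg ‖ξ‖]

/-- growth of the ratio of Sobolev norms along the model solutions, uniformly in the exponent -/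
theorem growth_unif (s s' M : ℝ) (hs : 0 < s) (hss : s ≤ s') (hs1 : s' < 1) (hM : 0 < M) :
    ∃ (T : ℝ) (m : ℕ) (Λ σ B : ℝ) (S : Sol T m Λ σ B) (q : ℝ → ℝ), 1 ≤ T ∧ 40 ≤ m ∧ 1 ≤ Λ ∧
      Λ ≤ m ∧ 0 < σ ∧ σ ≤ 1 / 2 ∧ 1 ≤ B ∧ ∀ r : ℝ, s ≤ r → r ≤ s' → 0 < q r ∧
      hsq r (S.vel T) ≤ ENNReal.ofReal (q r) ∧
      ENNReal.ofReal (M * q r) ≤ hdot r (S.vel 0) := by
  obtain ⟨c, C, hc0, hC0, hPm⟩ := Pm_props
  obtain ⟨C0, hC00, hens⟩ := enstrophy_close
  have hs'0 : 0 < s' := by linarith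
  obtain ⟨ivb, Vb, hVb0, hVb'⟩ := gr_vb s' hs'0 hs1
  have hVb : ∀ r, r ≤ s' → hsq r vb ≤ ENNReal.ofReal Vb := fun r hr =>
    (hsq_mono hr vb).trans hVb'
  have hs1' : 0 < 1 - s' := by linarith
  -- the constants for the exponent `r`
  set κr : ℝ → ℝ := fun r => (1 / 10) * (c / 4) ^ (2 - r) / (C / 4) ^ (1 - r) with hκr
  set κ : ℝ := (1 / 10) * (min 1 (c / 4)) ^ 2 / (max 1 (C / 4)) with hκ
  have hmin0 : 0 < min 1 (c / 4) := lt_min one_pos (by linarith)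
  have hmax1 : 1 ≤ max 1 (C / 4) := le_max_left _ _
  have hκ0 : 0 < κ := by
    have : 0 < max 1 (C / 4) := by linarith
    positivity
  have hκle : ∀ r, 0 < r → r < 1 → κ ≤ κr r := by
    intro r hr0 hr1
    rw [hκr, hκ]
    simp only
    have h1 : (min 1 (c / 4)) ^ 2 ≤ (c / 4) ^ (2 - r) := by
      calc (min 1 (c / 4)) ^ 2 = (min 1 (c / 4)) ^ (2 : ℝ) := by
            rw [← Real.rpow_natCast]; norm_num
        _ ≤ (min 1 (c / 4)) ^ (2 - r) :=
            Real.rpow_le_rpow_of_exponent_ge hmin0 (min_le_left _ _) (by linarith)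
        _ ≤ (c / 4) ^ (2 - r) := Real.rpow_le_rpow hmin0.le (min_le_right _ _) (by linarith)
    have h2 : (C / 4) ^ (1 - r) ≤ max 1 (C / 4) := by
      calc (C / 4) ^ (1 - r) ≤ (max 1 (C / 4)) ^ (1 - r) :=
            Real.rpow_le_rpow (by linarith) (le_max_right _ _) (by linarith)
        _ ≤ (max 1 (C / 4)) ^ (1 : ℝ) :=
            Real.rpow_le_rpow_of_exponent_le hmax1 (by linarith)
        _ = max 1 (C / 4) := Real.rpow_one _
    have h3 : 0 < (C / 4) ^ (1 - r) := Real.rpow_pos_of_pos (by linarith) _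
    apply div_le_div₀ (by positivity) (by linarith) h3 h2
  have hG1 : 1 ≤ 201 + C0 := by linarith
  have hG0 : 0 < 201 + C0 := by linarith
  set A : ℝ := κ / (16 * M * (201 + C0)) with hA
  have hA0 : 0 < A := by positivity
  set ρ : ℝ := min (1 / 201) (A ^ (1 / (1 - s')) / 201) with hρ
  have hρ0 : 0 < ρ := by
    have : 0 < A ^ (1 / (1 - s')) := Real.rpow_pos_of_pos hA0 _
    exact lt_min (by norm_num) (by positivity)
  have hρ1 : 201 * ρ ≤ 1 := by
    have := min_le_left (1 / 201 : ℝ) (A ^ (1 / (1 - s')) / 201)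
    change ρ ≤ _ at this
    linarith
  have hρA : ∀ r, 0 < r → r ≤ s' → (201 * ρ) ^ (1 - r) ≤ A := by
    intro r _ hr
    have h1 : 201 * ρ ≤ A ^ (1 / (1 - s')) := by
      have := min_le_right (1 / 201 : ℝ) (A ^ (1 / (1 - s')) / 201)
      change ρ ≤ _ at this
      linarith
    calc (201 * ρ) ^ (1 - r) ≤ (201 * ρ) ^ (1 - s') :=
          Real.rpow_le_rpow_of_exponent_ge (by positivity) hρ1 (by linarith)
      _ ≤ (A ^ (1 / (1 - s'))) ^ (1 - s') :=
          Real.rpow_le_rpow (by positivity) h1 hs1'.le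
      _ = A := by
        rw [← Real.rpow_mul hA0.le, one_div, inv_mul_cancel₀ hs1'.ne', Real.rpow_one]
  obtain ⟨T, hT1, hT2⟩ := ((eventually_ge_atTop (1 : ℝ)).and
    (RT_tendsto.eventually (gt_mem_nhds hρ0))).exists
  have hT0 : 0 < T := by linarith
  obtain ⟨σ, B, hσ0, hσ1, hB1, hsol⟩ := exists_sol T hT1
  obtain ⟨K, hK0, hen⟩ := energy_T T σ B hT1 hσ0 hσ1 hB1
  obtain ⟨m, hm40, hma, hmb⟩ := gr_choose s hs (max B (K / ρ)) (max (4 * Vb / κ) (16 * M * Vb / κ))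
  have hm0 : (0 : ℝ) < m := by
    have : 0 < m := by omega
    exact_mod_cast this
  have hm1 : (1 : ℝ) ≤ m := by
    have : 1 ≤ m := by omega
    exact_mod_cast this
  set Y : ℝ := (m : ℝ) ^ (s / 2) with hY
  set X : ℝ → ℝ := fun r => (m : ℝ) ^ (2 * r - s) with hX
  set Λ : ℝ := (m : ℝ) ^ (1 - s / 2) with hΛdef
  have hY0 : 0 < Y := Real.rpow_pos_of_pos hm0 _
  have hX0 : ∀ r, 0 < X r := fun r => Real.rpow_pos_of_pos hm0 _
  have hXm : ∀ r, s ≤ r → (m : ℝ) ^ s ≤ X r := by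
    intro r hr
    exact Real.rpow_le_rpow_of_exponent_le hm1 (by linarith)
  have hΛ0 : 0 < Λ := Real.rpow_pos_of_pos hm0 _
  have hΛY : Λ * Y = m := by
    rw [hΛdef, hY, ← Real.rpow_add hm0]
    simp
  have hΛ1 : 1 ≤ Λ := Real.one_le_rpow hm1 (by linarith)
  have hY1 : 1 ≤ Y := Real.one_le_rpow hm1 (by linarith)
  have hBY : B ≤ Y := (le_max_left _ _).trans hma
  have hKY : K / ρ ≤ Y := (le_max_right _ _).trans hma
  have hBΛ : B * Λ ≤ m := by
    rw [← hΛY, mul_comm]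
    exact mul_le_mul_of_nonneg_left hBY hΛ0.le
  have hΛm : Λ ≤ m := by
    rw [← hΛY]
    exact le_mul_of_one_le_right hΛ0.le hY1
  have hΛdm : Λ / m = 1 / Y := by
    rw [← hΛY]
    field_simp
  obtain ⟨S⟩ := hsol m Λ hm40 hΛ1 hBΛ
  have hV1 : ∀ r, s ≤ r → 4 * Vb ≤ κ * X r := by
    intro r hr
    have h1 : 4 * Vb / κ ≤ (m : ℝ) ^ s := (le_max_left _ _).trans hmb
    have h2 := h1.trans (hXm r hr)
    rw [div_le_iff₀ hκ0] at h2
    linarith
  have hV2 : ∀ r, s ≤ r → 16 * M * Vb ≤ κ * X r := by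
    intro r hr
    have h1 : 16 * M * Vb / κ ≤ (m : ℝ) ^ s := (le_max_right _ _).trans hmb
    have h2 := h1.trans (hXm r hr)
    rw [div_le_iff₀ hκ0] at h2
    linarith
  -- upper bound
  have hE : ∫⁻ z : ℂ, ‖hc (fun n (x : ℝ) => S.cu T n (x : ℂ)) z / z - vb z‖ₑ ^ 2 ≤
      ENNReal.ofReal (201 * ρ * (Λ / m) ^ 2) := by
    refine (hen m Λ hm40 hΛ1 hΛm S).trans (ENNReal.ofReal_le_ofReal ?_)
    have h1 : K * (Λ / m) ≤ ρ := by
      rw [hΛdm, mul_one_div, div_le_iff₀ hY0]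
      rw [div_le_iff₀ hρ0] at hKY
      linarith
    have h2 : 200 * RT T + K * (Λ / m) ≤ 201 * ρ := by
      have := hT2.le
      linarith
    have h3 : 0 ≤ (Λ / m) ^ 2 := sq_nonneg _
    nlinarith
  have hZ : ∫⁻ z : ℂ, ‖S.om T z - wb z‖ₑ ^ 2 ≤ ENNReal.ofReal (C0 * Λ ^ 2) :=
    (hens T m Λ σ B hT0 hm40 hΛ1 hBΛ hσ0 hσ1 hB1 S T ⟨hT0.le, le_refl _⟩).2
  have hΛ2 : Λ ^ 2 = (m : ℝ) ^ (2 - s) := by
    rw [hΛdef, ← Real.rpow_natCast, ← Real.rpow_mul hm0.le]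
    congr 1
    push_cast
    ring
  have hΛm2 : (Λ / m) ^ 2 = (m : ℝ) ^ (-s) := by
    rw [div_pow, hΛ2, ← Real.rpow_natCast (m : ℝ) 2, ← Real.rpow_sub hm0]
    congr 1
    push_cast
    ring
  have hup2 : ∀ r, s ≤ r → r ≤ s' →
      (201 * ρ * (Λ / m) ^ 2) ^ (1 - r) * (201 * ρ * (Λ / m) ^ 2 + C0 * Λ ^ 2) ^ r ≤
      A * ((201 + C0) * X r) := by
    intro r hr hr'
    have hr0 : 0 < r := by linarith
    have h1 : 201 * ρ * (Λ / m) ^ 2 + C0 * Λ ^ 2 ≤ (201 + C0) * Λ ^ 2 := by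
      have h2 : (Λ / m) ^ 2 ≤ Λ ^ 2 := by
        apply pow_le_pow_left₀ (by positivity)
        exact div_le_self hΛ0.le hm1
      have h3 : 0 ≤ (Λ / m) ^ 2 := sq_nonneg _
      nlinarith
    have h4 : (201 * ρ * (Λ / m) ^ 2 + C0 * Λ ^ 2) ^ r ≤ ((201 + C0) * Λ ^ 2) ^ r :=
      Real.rpow_le_rpow (by positivity) h1 hr0.le
    have h5 : (201 * ρ * (Λ / m) ^ 2) ^ (1 - r) = (201 * ρ) ^ (1 - r) * ((m : ℝ) ^ (-s)) ^ (1 - r) := by
      rw [Real.mul_rpow (by positivity) (by positivity), hΛm2]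
    have h6 : ((201 + C0) * Λ ^ 2) ^ r = (201 + C0) ^ r * ((m : ℝ) ^ (2 - s)) ^ r := by
      rw [Real.mul_rpow (by positivity) (by positivity), hΛ2]
    have h6' : (201 + C0) ^ r ≤ 201 + C0 := by
      calc (201 + C0) ^ r ≤ (201 + C0) ^ (1 : ℝ) :=
            Real.rpow_le_rpow_of_exponent_le hG1 (by linarith)
        _ = 201 + C0 := Real.rpow_one _
    have h7 : ((m : ℝ) ^ (-s)) ^ (1 - r) * ((m : ℝ) ^ (2 - s)) ^ r = X r := by
      rw [← Real.rpow_mul hm0.le, ← Real.rpow_mul hm0.le, ← Real.rpow_add hm0, hX]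
      congr 1
      ring
    have h8 : (0 : ℝ) ≤ ((m : ℝ) ^ (-s)) ^ (1 - r) := by positivity
    have h9 : (0 : ℝ) ≤ ((m : ℝ) ^ (2 - s)) ^ r := by positivity
    calc (201 * ρ * (Λ / m) ^ 2) ^ (1 - r) * (201 * ρ * (Λ / m) ^ 2 + C0 * Λ ^ 2) ^ r
        ≤ ((201 * ρ) ^ (1 - r) * ((m : ℝ) ^ (-s)) ^ (1 - r)) *
          ((201 + C0) ^ r * ((m : ℝ) ^ (2 - s)) ^ r) := by
          rw [← h5, ← h6]
          exact mul_le_mul_of_nonneg_left h4 (by positivity)
      _ = (201 * ρ) ^ (1 - r) * ((201 + C0) ^ r *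
          (((m : ℝ) ^ (-s)) ^ (1 - r) * ((m : ℝ) ^ (2 - s)) ^ r)) := by ring
      _ = (201 * ρ) ^ (1 - r) * ((201 + C0) ^ r * X r) := by rw [h7]
      _ ≤ A * ((201 + C0) ^ r * X r) :=
          mul_le_mul_of_nonneg_right (hρA r hr0 hr')
            (mul_nonneg (Real.rpow_nonneg hG0.le _) (hX0 r).le)
      _ ≤ A * ((201 + C0) * X r) :=
          mul_le_mul_of_nonneg_left (mul_le_mul_of_nonneg_right h6' (hX0 r).le) hA0.le
  obtain ⟨ifT, _, _, _, ivT, _⟩ :=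
    gr_vel T m Λ σ B hT0 hm40 hΛ1 hΛm hσ0 hσ1 hB1 S T ⟨hT0.le, le_refl _⟩
  obtain ⟨_, _, _, _, iv0, _⟩ :=
    gr_vel T m Λ σ B hT0 hm40 hΛ1 hΛm hσ0 hσ1 hB1 S 0 ⟨le_refl _, hT0.le⟩
  refine ⟨T, m, Λ, σ, B, S, fun r => κ * X r / (4 * M), hT1, hm40, hΛ1, hΛm, hσ0, hσ1, hB1,
    fun r hr hr' => ?_⟩
  have hr0 : 0 < r := by linarith
  have hr1 : r < 1 := by linarith
  have hXr := hX0 r
  refine ⟨?_, ?_, ?_⟩
  · show 0 < κ * X r / (4 * M)
    positivity
  · show hsq r (S.vel T) ≤ ENNReal.ofReal (κ * X r / (4 * M))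
    have hup := gr_upper r hr0 hr1 T m Λ σ B hT0 hm40 hΛ1 hΛm hσ0 hσ1 hB1 S
      (201 * ρ * (Λ / m) ^ 2) (C0 * Λ ^ 2) (by positivity) (by positivity) hE hZ
    have h1 := (hsq_add_le r vb (fun z => S.vel T z - vb z) ivb ifT).1
    have h2 : (fun z => vb z + (S.vel T z - vb z)) = S.vel T := by
      funext z
      ring
    rw [h2] at h1
    refine h1.trans ?_
    have h3 : hsq r (fun z => S.vel T z - vb z) ≤ ENNReal.ofReal (A * ((201 + C0) * X r)) :=
      hup.trans (ENNReal.ofReal_le_ofReal (hup2 r hr hr'))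
    have h4 : 2 * hsq r vb + 2 * hsq r (fun z => S.vel T z - vb z) ≤
        2 * ENNReal.ofReal Vb + 2 * ENNReal.ofReal (A * ((201 + C0) * X r)) :=
      add_le_add (mul_le_mul' (le_refl _) (hVb r hr')) (mul_le_mul' (le_refl _) h3)
    refine h4.trans ?_
    have h5 : (2 : ENNReal) = ENNReal.ofReal 2 := by simp
    rw [h5, ← ENNReal.ofReal_mul (by norm_num), ← ENNReal.ofReal_mul (by norm_num),
      ← ENNReal.ofReal_add (by positivity) (by positivity)]
    apply ENNReal.ofReal_le_ofReal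
    have h6 : A * ((201 + C0) * X r) = κ * X r / (16 * M) := by
      rw [hA]
      field_simp
    rw [h6]
    have h7 : 2 * Vb ≤ κ * X r / (8 * M) := by
      rw [le_div_iff₀ (by positivity)]
      have := hV2 r hr
      linarith
    have h8 : 2 * (κ * X r / (16 * M)) = κ * X r / (8 * M) := by
      field_simp
      ring
    have h9 : κ * X r / (4 * M) = κ * X r / (8 * M) + κ * X r / (8 * M) := by
      field_simp
      ring
    rw [h8, h9]
    linarith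
  · show ENNReal.ofReal (M * (κ * X r / (4 * M))) ≤ hdot r (S.vel 0)
    have hlow := gr_lower r hr0 hr1 T m Λ σ B hT0 hm40 hΛ1 hΛm hσ0 hσ1 hB1 S c C hc0 hC0
      (hPm m hm40)
    have h1 : κ * X r ≤
        ((Λ / 2) ^ 2 * c) ^ (2 - r) / (10 * ((Λ / 2) ^ 2 * (C * (m : ℝ) ^ 2)) ^ (1 - r)) := by
      have e0 : ((Λ / 2) ^ 2 * c) ^ (2 - r) / (10 * ((Λ / 2) ^ 2 * (C * (m : ℝ) ^ 2)) ^ (1 - r)) =
          κr r * X r := by
        have e1 : (Λ / 2) ^ 2 * c = (m : ℝ) ^ (2 - s) * (c / 4) := by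
          rw [← hΛ2]; ring
        have e2 : (Λ / 2) ^ 2 * (C * (m : ℝ) ^ 2) = (m : ℝ) ^ (4 - s) * (C / 4) := by
          have : (m : ℝ) ^ (4 - s) = (m : ℝ) ^ (2 - s) * (m : ℝ) ^ 2 := by
            rw [← Real.rpow_natCast (m : ℝ) 2, ← Real.rpow_add hm0]
            congr 1
            push_cast
            ring
          rw [this, ← hΛ2]; ring
        rw [e1, e2, Real.mul_rpow (by positivity) (by positivity),
          Real.mul_rpow (by positivity) (by positivity), ← Real.rpow_mul hm0.le,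
          ← Real.rpow_mul hm0.le]
        have e3 : (m : ℝ) ^ ((2 - s) * (2 - r)) = (m : ℝ) ^ ((4 - s) * (1 - r)) * X r := by
          rw [hX, ← Real.rpow_add hm0]
          congr 1
          ring
        rw [e3, hκr]
        have e4 : (0 : ℝ) < (m : ℝ) ^ ((4 - s) * (1 - r)) := Real.rpow_pos_of_pos hm0 _
        have e5 : (0 : ℝ) < (C / 4) ^ (1 - r) := Real.rpow_pos_of_pos (by linarith) _
        field_simp
      rw [e0]
      exact mul_le_mul_of_nonneg_right (hκle r hr0 hr1) hXr.le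
    have hlow' := (ENNReal.ofReal_le_ofReal h1).trans hlow
    have h2 := (hsq_add_le r (S.vel 0) (fun z => -(vb z)) iv0 ivb.neg).2
    have h3 : (fun z => S.vel 0 z + -(vb z)) = (fun z => S.vel 0 z - vb z) := by
      funext z
      ring
    rw [h3, (hsq_neg r vb).2] at h2
    have h4 : hdot r vb ≤ ENNReal.ofReal Vb := (hdot_le_hsq r hr0.le vb).trans (hVb r hr')
    have h5 : ENNReal.ofReal (κ * X r) ≤ 2 * hdot r (S.vel 0) + ENNReal.ofReal (2 * Vb) := by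
      refine hlow'.trans (h2.trans ?_)
      rw [ENNReal.ofReal_mul (by norm_num), ENNReal.ofReal_ofNat]
      exact add_le_add (le_refl _) (mul_le_mul' (le_refl _) h4)
    have h6 : ENNReal.ofReal (κ * X r - 2 * Vb) ≤ 2 * hdot r (S.vel 0) := by
      rw [ENNReal.ofReal_sub _ (by positivity)]
      exact tsub_le_iff_right.2 h5
    have h7 : 2 * ENNReal.ofReal (M * (κ * X r / (4 * M))) ≤ 2 * hdot r (S.vel 0) := by
      refine le_trans ?_ h6
      have e6 : (2 : ENNReal) = ENNReal.ofReal 2 := by simp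
      rw [e6, ← ENNReal.ofReal_mul (by norm_num)]
      apply ENNReal.ofReal_le_ofReal
      have e7 : 2 * (M * (κ * X r / (4 * M))) = κ * X r / 2 := by
        field_simp
        ring
      rw [e7]
      have := hV1 r hr
      linarith
    exact (ENNReal.mul_le_mul_iff_right (by norm_num) (by norm_num)).1 h7

end Pool.Agent.KS6_98.NIu
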