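import Pool.Agent.KS6_98.NIu.Grow
import Pool.Graph.R_seed8.Helper383.NI.R2

/-!
Norm inflation together with growth of all the Sobolev norms with exponents in a compact interval.
-/

open Complex MeasureTheory Set Filter Topology

namespace Pool.Agent.KS6_98.NIu

open Pool.Agent.Helper383.NI
open Pool.Agent.Helper383.NI.JL1 (euler_of_sol)
open Pool.Agent.Helper383.NI.JL2 (pressure_decay)
open Pool.Agent.Helper383.NI.JU0 (IsHinfEuler)
open Pool.Agent.Helper383.NI.JU2 (euler_unique)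
open Pool.Agent.Helper383.NI.JR1 (reverse_scale hinf_of_euler)
open Pool.Agent.Helper383.NI.JS1 (fou_scale lint_scale en_sq hsq_conj hsq_neg hsq_scale)

/-- scaling of the homogeneous norm -/
theorem hdot_scale (s a b : ℝ) (ha : 0 < a) (hb : 0 < b) (f : ℂ → ℂ) :
    hdot s (fun z => (a : ℂ) * f ((b : ℂ) * z)) =
      ENNReal.ofReal (a ^ 2 * b ^ (2 * s - 2)) * hdot s f := by
  have hfac : a ^ 2 * b ^ (2 * s - 2) = a ^ 2 * (b ^ 2)⁻¹ * b ^ (2 * s) := by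
    rw [Real.rpow_sub hb, Real.rpow_two]
    field_simp
  have e1 : ∀ ξ : ℂ, FourierTransform.fourier
      (fun z : ℂ => ((((a : ℂ) * f ((b : ℂ) * z)).re : ℝ) : ℂ)) ξ
      = ((a * (b ^ 2)⁻¹ : ℝ) : ℂ) * FourierTransform.fourier (fun z : ℂ => ((f z).re : ℂ)) (b⁻¹ • ξ) := by
    intro ξ
    rw [← fou_scale a b hb (fun z : ℂ => ((f z).re : ℂ)) ξ]
    simp only [Complex.re_ofReal_mul, Complex.ofReal_mul]
  have e2 : ∀ ξ : ℂ, FourierTransform.fourier
      (fun z : ℂ => ((((a : ℂ) * f ((b : ℂ) * z)).im : ℝ) : ℂ)) ξ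
      = ((a * (b ^ 2)⁻¹ : ℝ) : ℂ) * FourierTransform.fourier (fun z : ℂ => ((f z).im : ℂ)) (b⁻¹ • ξ) := by
    intro ξ
    rw [← fou_scale a b hb (fun z : ℂ => ((f z).im : ℂ)) ξ]
    simp only [Complex.im_ofReal_mul, Complex.ofReal_mul]
  unfold hdot
  simp only [e1, e2]
  have hc : ‖((a * (b ^ 2)⁻¹ : ℝ) : ℂ)‖ₑ ^ 2 = ENNReal.ofReal ((a * (b ^ 2)⁻¹) ^ 2) := by
    rw [en_sq, Complex.norm_real, Real.norm_eq_abs, sq_abs]
  have hpt : ∀ ξ : ℂ, ENNReal.ofReal (‖ξ‖ ^ (2 * s)) *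
      (‖((a * (b ^ 2)⁻¹ : ℝ) : ℂ) * FourierTransform.fourier (fun z : ℂ => ((f z).re : ℂ)) (b⁻¹ • ξ)‖ₑ ^ 2
      + ‖((a * (b ^ 2)⁻¹ : ℝ) : ℂ) * FourierTransform.fourier (fun z : ℂ => ((f z).im : ℂ)) (b⁻¹ • ξ)‖ₑ ^ 2)
      = (fun ζ : ℂ => (ENNReal.ofReal ((a * (b ^ 2)⁻¹) ^ 2) * ENNReal.ofReal (b ^ (2 * s))) *
        (ENNReal.ofReal (‖ζ‖ ^ (2 * s)) *
        (‖FourierTransform.fourier (fun z : ℂ => ((f z).re : ℂ)) ζ‖ₑ ^ 2
      + ‖FourierTransform.fourier (fun z : ℂ => ((f z).im : ℂ)) ζ‖ₑ ^ 2))) (b⁻¹ • ξ) := by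
    intro ξ
    simp only [enorm_mul, mul_pow, hc]
    have hn : ENNReal.ofReal (‖ξ‖ ^ (2 * s)) =
        ENNReal.ofReal (b ^ (2 * s)) * ENNReal.ofReal (‖b⁻¹ • ξ‖ ^ (2 * s)) := by
      rw [← ENNReal.ofReal_mul (by positivity), ← Real.mul_rpow hb.le (norm_nonneg _)]
      congr 2
      rw [norm_smul, Real.norm_eq_abs, abs_of_pos (by positivity)]
      field_simp
    rw [hn]
    ring
  have hsc := lint_scale b hb (fun ζ : ℂ => (ENNReal.ofReal ((a * (b ^ 2)⁻¹) ^ 2) *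
        ENNReal.ofReal (b ^ (2 * s))) *
        (ENNReal.ofReal (‖ζ‖ ^ (2 * s)) *
        (‖FourierTransform.fourier (fun z : ℂ => ((f z).re : ℂ)) ζ‖ₑ ^ 2
      + ‖FourierTransform.fourier (fun z : ℂ => ((f z).im : ℂ)) ζ‖ₑ ^ 2)))
  refine (lintegral_congr hpt).trans (hsc.trans ?_)
  rw [lintegral_const_mul' _ _ (ENNReal.mul_ne_top (by simp) (by simp)), ← mul_assoc,
    ← ENNReal.ofReal_mul (by positivity), ← ENNReal.ofReal_mul (by positivity), hfac]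
  congr 2
  field_simp

theorem hdot_neg (s : ℝ) (f : ℂ → ℂ) : hdot s (fun z => -(f z)) = hdot s f := (hsq_neg s f).2

/-- norm inflation for the planar Euler equations, with growth of all the norms -/
theorem norm_inflation_unif (s₀ s s' : ℝ) (hp : 0 < s₀) (hps : s₀ ≤ s) (hss : s ≤ s')
    (hs1 : s' < 1) :
    ∀ ε : ℝ, 0 < ε →
    ∃ (u₀ : ℂ → ℂ) (t : ℝ), 0 < t ∧ t < ε ∧ ContDiff ℝ (⊤ : ℕ∞) u₀ ∧ Integrable u₀ ∧
      (∀ n : ℕ, MemLp (iteratedFDeriv ℝ n u₀) 2) ∧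
      (∀ z, (fderiv ℝ u₀ z 1).re + (fderiv ℝ u₀ z I).im = 0) ∧
      hsq s u₀ < ENNReal.ofReal (ε ^ 2) ∧
      (∃ u p, IsHinfEuler t u p ∧ u 0 = u₀) ∧
      (∀ u p, IsHinfEuler t u p → u 0 = u₀ →
        Integrable (u t) ∧ ENNReal.ofReal ((1 / ε) ^ 2) < hdot s (u t) ∧
        ∀ r, s₀ ≤ r → r ≤ s' → ENNReal.ofReal ((1 / ε) ^ 2) * hsq r u₀ < hdot r (u t)) := by
  intro ε hε
  have hs : 0 < s := by linarith
  have hM : 0 < 4 / ε ^ 4 + 2 / ε ^ 2 := by positivity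
  obtain ⟨T, m, Λ, σ, B, S, q, hT1, hm, hΛ, hη, hσ, hσ1, hB, hall⟩ :=
    growth_unif s₀ s' (4 / ε ^ 4 + 2 / ε ^ 2) hp (hps.trans hss) hs1 hM
  obtain ⟨hq, hq1, hq2⟩ := hall s hps hss
  have hs1s : s < 1 := by linarith
  have hT : 0 < T := by linarith
  obtain ⟨-, -, -, p, hE⟩ := euler_of_sol T m Λ σ B hT hm hΛ hη hσ hσ1 hB S
  obtain ⟨C, hC⟩ := pressure_decay T m Λ σ B hT hm hΛ hη hσ hσ1 hB S p hE
  have hH := hinf_of_euler T C hT (fun t z => (starRingEnd ℂ) (S.vel t z)) p hE hC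
  set U : ℝ → ℂ → ℂ := fun t z => (starRingEnd ℂ) (S.vel t z) with hU
  -- the scaling parameters
  obtain ⟨Y, hYdef⟩ : ∃ Y : ℝ, Y = ε ^ 2 / (2 * q s) := ⟨_, rfl⟩
  have hY : 0 < Y := by rw [hYdef]; positivity
  have hsY : 0 < Real.sqrt Y := Real.sqrt_pos.mpr hY
  obtain ⟨b, hbdef⟩ : ∃ b : ℝ, b = T / (Real.sqrt Y * ε) + 1 := ⟨_, rfl⟩
  have hx0 : 0 < T / (Real.sqrt Y * ε) := by positivity
  have hb1 : 1 ≤ b := by rw [hbdef]; linarith
  have hb : 0 < b := by linarith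
  obtain ⟨a, hadef⟩ : ∃ a : ℝ, a = Real.sqrt Y * b ^ (1 - s) := ⟨_, rfl⟩
  have ha : 0 < a := by rw [hadef]; positivity
  have hab : a * b = Real.sqrt Y * b ^ (2 - s) := by
    rw [hadef, mul_assoc]
    congr 1
    have : b ^ (1 - s) * b = b ^ (1 - s) * b ^ (1 : ℝ) := by rw [Real.rpow_one]
    rw [this, ← Real.rpow_add hb]
    congr 1; ring
  have hpow : b ≤ b ^ (2 - s) := by
    calc b = b ^ (1 : ℝ) := (Real.rpow_one b).symm
      _ ≤ b ^ (2 - s) := Real.rpow_le_rpow_of_exponent_le hb1 (by linarith)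
  have ha2 : a ^ 2 * b ^ (2 * s - 2) = Y := by
    rw [hadef, mul_pow, Real.sq_sqrt hY.le, ← Real.rpow_natCast (b ^ (1 - s)) 2,
      ← Real.rpow_mul hb.le, mul_assoc, ← Real.rpow_add hb]
    have : (1 - s) * ((2 : ℕ) : ℝ) + (2 * s - 2) = 0 := by push_cast; ring
    rw [this, Real.rpow_zero, mul_one]
  have habpos : 0 < a * b := mul_pos ha hb
  have ht0 : 0 < T / (a * b) := div_pos hT habpos
  have htε : T / (a * b) < ε := by
    rw [div_lt_iff₀ habpos, hab]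
    have h1 : T / (Real.sqrt Y * ε) < b ^ (2 - s) := by
      have : T / (Real.sqrt Y * ε) < b := by rw [hbdef]; linarith
      linarith
    rw [div_lt_iff₀ (by positivity)] at h1
    calc T < b ^ (2 - s) * (Real.sqrt Y * ε) := h1
      _ = ε * (Real.sqrt Y * b ^ (2 - s)) := by ring
  have hV := reverse_scale T a b hT ha hb U p hH
  set V : ℝ → ℂ → ℂ := fun t z => -((a : ℂ) * U (T - a * b * t) ((b : ℂ) * z)) with hVdef
  have m0 : (0 : ℝ) ∈ Icc 0 (T / (a * b)) := ⟨le_refl _, ht0.le⟩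
  have m1 : T / (a * b) ∈ Icc 0 (T / (a * b)) := ⟨ht0.le, le_refl _⟩
  have hV0 : V 0 = fun z => -((a : ℂ) * U T ((b : ℂ) * z)) := by
    rw [hVdef]
    funext z
    simp only [mul_zero, sub_zero]
  have hV1 : V (T / (a * b)) = fun z => -((a : ℂ) * U 0 ((b : ℂ) * z)) := by
    rw [hVdef]
    funext z
    have : T - a * b * (T / (a * b)) = 0 := by
      rw [mul_div_cancel₀ _ habpos.ne', sub_self]
    simp only [this]
  have hint : ∀ τ ∈ Icc 0 T, Integrable (fun z => -((a : ℂ) * U τ ((b : ℂ) * z))) := by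
    intro τ hτ
    have h1 : Integrable (U τ) := hE.integrable τ hτ
    have h2 : Integrable (fun z : ℂ => U τ (b • z)) := h1.comp_smul hb.ne'
    have h3 : (fun z : ℂ => U τ (b • z)) = fun z => U τ ((b : ℂ) * z) := by
      funext z
      rw [Complex.real_smul]
    rw [h3] at h2
    exact (h2.const_mul (a : ℂ)).neg
  have hUT : ∀ r, s₀ ≤ r → r ≤ s' → hsq r (U T) ≤ ENNReal.ofReal (q r) := by
    intro r hr hr'
    rw [hU]
    rw [(hsq_conj r (S.vel T)).1]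
    exact (hall r hr hr').2.1
  have hU0 : ∀ r, s₀ ≤ r → r ≤ s' →
      ENNReal.ofReal ((4 / ε ^ 4 + 2 / ε ^ 2) * q r) ≤ hdot r (U 0) := by
    intro r hr hr'
    rw [hU]
    rw [(hsq_conj r (S.vel 0)).2]
    exact (hall r hr hr').2.2
  have hdV1 : ∀ r, hdot r (V (T / (a * b))) =
      ENNReal.ofReal (a ^ 2 * b ^ (2 * r - 2)) * hdot r (U 0) := by
    intro r
    rw [hV1, (hsq_neg r (fun z => (a : ℂ) * U 0 ((b : ℂ) * z))).2]
    exact hdot_scale r a b ha hb (U 0)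
  refine ⟨V 0, T / (a * b), ht0, htε, hV.smooth 0 m0, ?_, hV.sobolev 0 m0, hV.divfree 0 m0, ?_,
    ⟨V, _, hV, rfl⟩, ?_⟩
  · rw [hV0]
    exact hint T ⟨hT.le, le_refl _⟩
  · rw [hV0, (hsq_neg s (fun z => (a : ℂ) * U T ((b : ℂ) * z))).1]
    calc hsq s (fun z => (a : ℂ) * U T ((b : ℂ) * z))
        ≤ ENNReal.ofReal (a ^ 2 * b ^ (2 * s - 2)) * hsq s (U T) :=
          (hsq_scale s a b hs hs1s ha hb1 (U T)).1
      _ ≤ ENNReal.ofReal Y * ENNReal.ofReal (q s) := by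
          rw [ha2]
          exact mul_le_mul_right (hUT s hps hss) _
      _ = ENNReal.ofReal (Y * q s) := (ENNReal.ofReal_mul hY.le).symm
      _ < ENNReal.ofReal (ε ^ 2) := by
          apply (ENNReal.ofReal_lt_ofReal_iff (by positivity)).mpr
          have : Y * q s = ε ^ 2 / 2 := by rw [hYdef]; field_simp
          rw [this]
          have : 0 < ε ^ 2 := by positivity
          linarith
  · intro u p' hu h0
    have hEq := euler_unique (T / (a * b)) ht0 u V p' _ hu hV h0 (T / (a * b)) m1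
    rw [hEq]
    refine ⟨?_, ?_, fun r hr hr' => ?_⟩
    · rw [hV1]
      exact hint 0 ⟨le_refl _, hT.le⟩
    · rw [hdV1 s, ha2]
      calc ENNReal.ofReal ((1 / ε) ^ 2) < ENNReal.ofReal (Y * ((4 / ε ^ 4 + 2 / ε ^ 2) * q s)) := by
            apply (ENNReal.ofReal_lt_ofReal_iff (by positivity)).mpr
            have : Y * ((4 / ε ^ 4 + 2 / ε ^ 2) * q s) = 2 * (1 / ε) ^ 2 + 1 := by
              rw [hYdef]; field_simp; ring
            rw [this]
            have : 0 < (1 / ε) ^ 2 := by positivity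
            linarith
        _ = ENNReal.ofReal Y * ENNReal.ofReal ((4 / ε ^ 4 + 2 / ε ^ 2) * q s) :=
            ENNReal.ofReal_mul hY.le
        _ ≤ ENNReal.ofReal Y * hdot s (U 0) := mul_le_mul_right (hU0 s hps hss) _
    · have hr0 : 0 < r := by linarith
      have hr1 : r < 1 := by linarith
      obtain ⟨hqr, -, -⟩ := hall r hr hr'
      have hZ : 0 < a ^ 2 * b ^ (2 * r - 2) := by positivity
      obtain ⟨Z, hZdef⟩ : ∃ Z : ℝ, Z = a ^ 2 * b ^ (2 * r - 2) := ⟨_, rfl⟩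
      rw [← hZdef] at hZ
      rw [hdV1 r, ← hZdef, hV0, (hsq_neg r (fun z => (a : ℂ) * U T ((b : ℂ) * z))).1]
      calc ENNReal.ofReal ((1 / ε) ^ 2) * hsq r (fun z => (a : ℂ) * U T ((b : ℂ) * z))
          ≤ ENNReal.ofReal ((1 / ε) ^ 2) * (ENNReal.ofReal Z * ENNReal.ofReal (q r)) := by
            refine mul_le_mul' le_rfl ?_
            refine ((hsq_scale r a b hr0 hr1 ha hb1 (U T)).1).trans ?_
            rw [← hZdef]
            exact mul_le_mul' le_rfl (hUT r hr hr')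
        _ = ENNReal.ofReal ((1 / ε) ^ 2 * (Z * q r)) := by
            rw [← ENNReal.ofReal_mul hZ.le, ← ENNReal.ofReal_mul (by positivity)]
        _ < ENNReal.ofReal (Z * ((4 / ε ^ 4 + 2 / ε ^ 2) * q r)) := by
            apply (ENNReal.ofReal_lt_ofReal_iff (by positivity)).mpr
            have e1 : Z * ((4 / ε ^ 4 + 2 / ε ^ 2) * q r) =
                (1 / ε) ^ 2 * (Z * q r) + ((1 / ε) ^ 2 * (Z * q r) + 4 / ε ^ 4 * (Z * q r)) := by
              field_simp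
              ring
            rw [e1]
            have : 0 < (1 / ε) ^ 2 * (Z * q r) + 4 / ε ^ 4 * (Z * q r) := by positivity
            linarith
        _ = ENNReal.ofReal Z * ENNReal.ofReal ((4 / ε ^ 4 + 2 / ε ^ 2) * q r) :=
            ENNReal.ofReal_mul hZ.le
        _ ≤ ENNReal.ofReal Z * hdot r (U 0) := mul_le_mul' le_rfl (hU0 r hr hr')

end Pool.Agent.KS6_98.NIu
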